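import Mathlib
import Pool.Agent.Helper831.SemiRiem
import Pool.Agent.Helper831.SemiLemmas

set_option maxSynthPendingDepth 3
set_option linter.unusedSectionVars false

open scoped Manifold ContDiff Topology
open Set Filter
open Pool.Agent.Helper831

namespace Pool.Agent.Results.MP_64c48d_gt.NoLinearGrowth

variable {E : Type*} [NormedAddCommGroup E] [NormedSpace ℝ E] [FiniteDimensional ℝ E]
  {M : Type*} [TopologicalSpace M] [ChartedSpace E M]
  [IsManifold 𝓘(ℝ, E) ∞ M]

theorem continuousOn_acc (g : SemiRiemannianMetric E M)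
    {e : OpenPartialHomeomorph M E}
    (he : e ∈ atlas E M) :
    ContinuousOn (fun p : E × E =>
      acc g e p.1 p.2) (e.target ×ˢ univ) := by
  have hG := contDiffOn_Gm g he
  have hfst : ContinuousOn (fun p : E × E => p.1)
      (e.target ×ˢ univ) := continuousOn_fst
  have hmaps : MapsTo (fun p : E × E => p.1)
      (e.target ×ˢ univ) e.target := fun p hp => hp.1
  have hD : ContinuousOn (fun p : E × E =>
      fderiv ℝ (Gm g e) p.1) (e.target ×ˢ univ) :=
    (hG.continuousOn_fderiv_of_isOpen e.open_target (by simp)).comp hfst hmaps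
  have hu : ContinuousOn (fun p : E × E => p.2)
      (e.target ×ˢ univ) := continuousOn_snd
  have hinv : ContinuousOn (fun p : E × E =>
      (Gm g e p.1).inverse) (e.target ×ˢ univ) := by
    have : ContinuousOn (fun y => (Gm g e y).inverse) e.target := by
      intro y hy
      have h1 : ContinuousAt (Gm g e) y :=
        (hG.contDiffAt (e.open_target.mem_nhds hy)).continuousAt
      have h2 : ContinuousAt (ContinuousLinearMap.inverse :
          (E →L[ℝ] (E →L[ℝ] ℝ)) → _)
          (Gm g e y) := by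
        rw [← Ge_coe g he hy]
        exact (contDiffAt_map_inverse (n := 0) (Ge g he hy)).continuousAt
      exact (ContinuousAt.comp (f := Gm g e) h2 h1).continuousWithinAt
    exact this.comp hfst hmaps
  have hb : ContinuousOn (fun p : E × E =>
      bvec g e p.1 p.2) (e.target ×ˢ univ) := by
    unfold bvec
    have hflip1 : Continuous (fun L : E →L[ℝ] E →L[ℝ] (E →L[ℝ] ℝ) => L.flip) :=
      (ContinuousLinearMap.flipₗᵢ ℝ E E (E →L[ℝ] ℝ)).continuous
    have hflip2 : Continuous (fun L : E →L[ℝ] E →L[ℝ] ℝ => L.flip) :=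
      (ContinuousLinearMap.flipₗᵢ ℝ E E ℝ).continuous
    have h1 : ContinuousOn (fun p : E × E =>
        ((fderiv ℝ (Gm g e) p.1).flip p.2)) (e.target ×ˢ univ) :=
      (hflip1.comp_continuousOn hD).clm_apply hu
    have h2 : ContinuousOn (fun p : E × E =>
        ((fderiv ℝ (Gm g e) p.1).flip p.2).flip p.2) (e.target ×ˢ univ) :=
      (hflip2.comp_continuousOn h1).clm_apply hu
    have h3 : ContinuousOn (fun p : E × E =>
        (fderiv ℝ (Gm g e) p.1 p.2) p.2) (e.target ×ˢ univ) :=
      (hD.clm_apply hu).clm_apply hu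
    exact (h2.const_smul (1 / 2 : ℝ)).sub h3
  unfold acc
  exact hinv.clm_apply hb

theorem continuousOn_Qf (g : SemiRiemannianMetric E M) (η : OneForm E M)
    {e : OpenPartialHomeomorph M E}
    (he : e ∈ atlas E M) :
    ContinuousOn (fun p : E × E =>
      Qf g η e p.1 p.2) (e.target ×ˢ univ) := by
  have hH := contDiffOn_Hm η he
  have hfst : ContinuousOn (fun p : E × E => p.1)
      (e.target ×ˢ univ) := continuousOn_fst
  have hmaps : MapsTo (fun p : E × E => p.1)
      (e.target ×ˢ univ) e.target := fun p hp => hp.1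
  have hu : ContinuousOn (fun p : E × E => p.2)
      (e.target ×ˢ univ) := continuousOn_snd
  have hD : ContinuousOn (fun p : E × E =>
      fderiv ℝ (Hm η e) p.1) (e.target ×ˢ univ) :=
    (hH.continuousOn_fderiv_of_isOpen e.open_target (by simp)).comp hfst hmaps
  have hH' : ContinuousOn (fun p : E × E =>
      Hm η e p.1) (e.target ×ˢ univ) := hH.continuousOn.comp hfst hmaps
  unfold Qf
  exact ((hD.clm_apply hu).clm_apply hu).add (hH'.clm_apply (continuousOn_acc g he))

omit [IsManifold 𝓘(ℝ, E) ∞ M] in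
theorem acc_smul (g : SemiRiemannianMetric E M)
    (e : OpenPartialHomeomorph M E)
    (y u : E) (r : ℝ) : acc g e y (r • u) = (r ^ 2) • acc g e y u := by
  have h : bvec g e y (r • u) = (r ^ 2) • bvec g e y u := by
    ext w
    simp only [bvec_apply, map_smul, ContinuousLinearMap.smul_apply, smul_eq_mul]
    ring
  unfold acc
  rw [h, map_smul]

omit [IsManifold 𝓘(ℝ, E) ∞ M] in
theorem Qf_smul (g : SemiRiemannianMetric E M) (η : OneForm E M)
    (e : OpenPartialHomeomorph M E)
    (y u : E) (r : ℝ) : Qf g η e y (r • u) = r ^ 2 * Qf g η e y u := by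
  unfold Qf
  rw [acc_smul]
  simp only [map_smul, ContinuousLinearMap.smul_apply, smul_eq_mul]
  ring

/-- local bound -/
theorem local_bound (g : SemiRiemannianMetric E M) (η : OneForm E M)
    {e : OpenPartialHomeomorph M E}
    (he : e ∈ atlas E M)
    (hQ : ∀ y ∈ e.target, ∀ u, u ≠ 0 → Gm g e y u u = 0 → Qf g η e y u ≠ 0)
    {K : Set E} (hK : IsCompact K) (hKe : K ⊆ e.target) :
    ∃ C : ℝ, 0 ≤ C ∧ ∀ y ∈ K, ∀ u, Gm g e y u u = 0 → (Hm η e y u) ^ 2 ≤ C * |Qf g η e y u| := by
  set S : Set (E × E) :=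
    (K ×ˢ Metric.sphere 0 1) ∩ (fun p => Gm g e p.1 p.2 p.2) ⁻¹' {0} with hS
  have hsub : K ×ˢ Metric.sphere (0 : E) 1 ⊆ e.target ×ˢ univ :=
    prod_mono hKe (subset_univ _)
  have hfst : ContinuousOn (fun p : E × E => p.1)
      (e.target ×ˢ univ) := continuousOn_fst
  have hmaps : MapsTo (fun p : E × E => p.1)
      (e.target ×ˢ univ) e.target := fun p hp => hp.1
  have hu : ContinuousOn (fun p : E × E => p.2)
      (e.target ×ˢ univ) := continuousOn_snd
  have hG : ContinuousOn (fun p : E × E =>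
      Gm g e p.1 p.2 p.2) (e.target ×ˢ univ) :=
    ((((contDiffOn_Gm g he).continuousOn.comp hfst hmaps).clm_apply hu).clm_apply hu)
  have hH : ContinuousOn (fun p : E × E =>
      Hm η e p.1 p.2) (e.target ×ˢ univ) :=
    ((contDiffOn_Hm η he).continuousOn.comp hfst hmaps).clm_apply hu
  have hKS : IsCompact (K ×ˢ Metric.sphere (0 : E) 1) :=
    hK.prod (isCompact_sphere _ _)
  have hScl : IsCompact S := by
    have h1 := (hG.mono hsub).preimage_isClosed_of_isClosed hKS.isClosed
      (isClosed_singleton (x := (0 : ℝ)))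
    exact hKS.of_isClosed_subset h1 inter_subset_left
  have hSsub : S ⊆ e.target ×ˢ univ := inter_subset_left.trans hsub
  have hSQ : ∀ p ∈ S, |Qf g η e p.1 p.2| ≠ 0 := by
    intro p hp
    have h1 : p.2 ≠ 0 := by
      intro h0
      have := hp.1.2
      rw [mem_sphere_zero_iff_norm, h0, norm_zero] at this
      exact zero_ne_one this
    exact abs_ne_zero.2 (hQ p.1 (hKe hp.1.1) p.2 h1 hp.2)
  have hφ : ContinuousOn (fun p : E × E =>
      (Hm η e p.1 p.2) ^ 2 / |Qf g η e p.1 p.2|) S := by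
    refine ((hH.mono hSsub).pow 2).div ?_ hSQ
    exact ((continuousOn_Qf g η he).mono hSsub).abs
  obtain ⟨C, hC⟩ := hScl.exists_bound_of_continuousOn hφ
  refine ⟨max C 0, le_max_right _ _, ?_⟩
  intro y hy u hu0
  by_cases h0 : u = 0
  · rw [h0]
    simp only [map_zero]
    have : 0 ≤ max C 0 * |Qf g η e y 0| := mul_nonneg (le_max_right _ _) (abs_nonneg _)
    nlinarith
  · have hn : ‖u‖ ≠ 0 := norm_ne_zero_iff.2 h0
    set v : E := ‖u‖⁻¹ • u with hv
    have huv : u = ‖u‖ • v := by rw [hv, smul_smul, mul_inv_cancel₀ hn, one_smul]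
    have hvn : ‖v‖ = 1 := by
      rw [hv, norm_smul, norm_inv, norm_norm, inv_mul_cancel₀ hn]
    have hvG : Gm g e y v v = 0 := by
      rw [hv]
      simp only [map_smul, ContinuousLinearMap.smul_apply, smul_eq_mul, hu0, mul_zero]
    have hmem : (y, v) ∈ S := ⟨⟨hy, by simpa using hvn⟩, hvG⟩
    have h1 := hC _ hmem
    have h2 := hSQ _ hmem
    simp only [Real.norm_eq_abs] at h1
    have h3 : (Hm η e y v) ^ 2 ≤ C * |Qf g η e y v| := by
      have h4 : (Hm η e y v) ^ 2 / |Qf g η e y v| ≤ C := (le_abs_self _).trans h1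
      have hpos : 0 < |Qf g η e y v| := lt_of_le_of_ne (abs_nonneg _) (Ne.symm h2)
      exact (div_le_iff₀ hpos).1 h4
    have h5 : (Hm η e y v) ^ 2 ≤ max C 0 * |Qf g η e y v| :=
      h3.trans (mul_le_mul_of_nonneg_right (le_max_left _ _) (abs_nonneg _))
    have h6 : Hm η e y u = ‖u‖ * Hm η e y v := by
      conv_lhs => rw [huv]
      rw [map_smul, smul_eq_mul]
    have h7 : Qf g η e y u = ‖u‖ ^ 2 * Qf g η e y v := by
      conv_lhs => rw [huv]
      rw [Qf_smul]
    rw [h6, h7, abs_mul, abs_of_nonneg (by positivity : (0 : ℝ) ≤ ‖u‖ ^ 2)]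
    have h8 : 0 ≤ ‖u‖ ^ 2 := by positivity
    nlinarith

/-- evaluation of the 1-form on the velocity, in coordinates -/
theorem eval_velocity (η : OneForm E M)
    {e : OpenPartialHomeomorph M E}
    (he : e ∈ atlas E M) {γ : ℝ → M} {t : ℝ}
    (hγ : MDifferentiableAt 𝓘(ℝ, ℝ) 𝓘(ℝ, E) γ t) (ht : γ t ∈ e.source) :
    η.form (γ t) (velocity E γ t) = Hm η e (e (γ t)) (deriv (fun r => e (γ r)) t) := by
  have h := velocity_eq_cvec he hγ ht
  have h2 := congrArg (fun p : TangentBundle 𝓘(ℝ, E) M => η.form p.1 p.2) h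
  exact h2

theorem form_velocity (g : SemiRiemannianMetric E M)
    {e : OpenPartialHomeomorph M E}
    (he : e ∈ atlas E M) {γ : ℝ → M} {t : ℝ}
    (hγ : MDifferentiableAt 𝓘(ℝ, ℝ) 𝓘(ℝ, E) γ t) (ht : γ t ∈ e.source) :
    g.form (γ t) (velocity E γ t) (velocity E γ t)
      = Gm g e (e (γ t)) (deriv (fun r => e (γ r)) t) (deriv (fun r => e (γ r)) t) := by
  have h := velocity_eq_cvec he hγ ht
  have h2 := congrArg (fun p : TangentBundle 𝓘(ℝ, E) M => g.form p.1 p.2 p.2) h
  exact h2

/-- conservation of energy -/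
theorem energy_const (g : SemiRiemannianMetric E M) {γ : ℝ → M} (hγ : g.IsGeodesic γ) (t : ℝ) :
    g.form (γ t) (velocity E γ t) (velocity E γ t)
      = g.form (γ 0) (velocity E γ 0) (velocity E γ 0) := by
  have hd : ∀ t, HasDerivAt (fun s => g.form (γ s) (velocity E γ s) (velocity E γ s)) 0 t := by
    intro t
    have he := chart_mem_atlas E (γ t)
    have ht := mem_chart_source E (γ t)
    have h1 := hasDerivAt_energy g he hγ ht
    refine h1.congr_of_eventuallyEq ?_
    have hcont : ContinuousAt γ t := (hγ.1 t).continuousAt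
    have : ∀ᶠ r in 𝓝 t, γ r ∈ (chartAt E (γ t)).source :=
      hcont.eventually_mem ((chartAt E (γ t)).open_source.mem_nhds ht)
    filter_upwards [this] with r hr
    exact form_velocity g he ((hγ.1 r).mdifferentiableAt (by simp)) hr
  exact is_const_of_deriv_eq_zero (fun t => (hd t).differentiableAt) (fun t => (hd t).deriv) t 0

theorem result {E : Type*} [NormedAddCommGroup E] [NormedSpace ℝ E] [FiniteDimensional ℝ E]
    {M : Type*} [TopologicalSpace M] [ChartedSpace E M] [IsManifold 𝓘(ℝ, E) ∞ M]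
    [CompactSpace M] [T2Space M]
    (g : SemiRiemannianMetric E M) (hind : g.IsIndefinite) (hcomp : g.IsComplete)
    (η : OneForm E M) (hη : ∃ x v, η.form x v ≠ 0) :
    ∃ γ : ℝ → M, g.IsLightlikeGeodesic γ ∧
      ¬ ∃ C₁ C₂ : ℝ, C₁ ≠ 0 ∧ ∀ t : ℝ, η.form (γ t) (velocity E γ t) = C₁ * t + C₂ := by
  by_contra hcon
  push Not at hcon
  -- the derivative form does not vanish on null vectors
  have hQ : ∀ e ∈ atlas E M, ∀ y ∈ e.target, ∀ u, u ≠ 0 →
      Gm g e y u u = 0 → Qf g η e y u ≠ 0 := by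
    intro e he y hy u hu hnull
    obtain ⟨γ, hγ, hγ0⟩ := hcomp (e.symm y) (coordVec e y u)
    have hmd : ∀ t, MDifferentiableAt 𝓘(ℝ, ℝ) 𝓘(ℝ, E) γ t := fun t =>
      (hγ.1 t).mdifferentiableAt (by simp)
    have hbase : γ 0 = e.symm y := congrArg (fun p : TangentBundle 𝓘(ℝ, E) M => p.1) hγ0
    have hsrc : γ 0 ∈ e.source := by rw [hbase]; exact e.map_target hy
    have hy0 : e (γ 0) = y := by rw [hbase]; exact e.right_inv hy
    have h1 := velocity_eq_cvec he (hmd 0) hsrc
    rw [hγ0, hy0] at h1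
    have h2 : (coordVec e y u : TangentSpace 𝓘(ℝ, E) (e.symm y))
        = mfderiv 𝓘(ℝ, E) 𝓘(ℝ, E) e.symm y (deriv (fun r => e (γ r)) 0) := by
      unfold cvec at h1
      exact eq_of_heq (Bundle.TotalSpace.mk.inj h1).2
    have h3 : deriv (fun r => e (γ r)) 0 = u := by
      have h4 : mfderiv 𝓘(ℝ, E) 𝓘(ℝ, E) e.symm y (deriv (fun r => e (γ r)) 0 - u) = 0 := by
        have h5 : mfderiv 𝓘(ℝ, E) 𝓘(ℝ, E) e.symm y (deriv (fun r => e (γ r)) 0 - u)
          = mfderiv 𝓘(ℝ, E) 𝓘(ℝ, E) e.symm y (deriv (fun r => e (γ r)) 0)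
            - mfderiv 𝓘(ℝ, E) 𝓘(ℝ, E) e.symm y u :=
          (mfderiv 𝓘(ℝ, E) 𝓘(ℝ, E) e.symm y).map_sub _ _
        rw [h5, ← h2]
        exact sub_self _
      exact sub_eq_zero.1 (cvec_injective he hy _ h4)
    have hlight : g.IsLightlikeGeodesic γ := by
      refine ⟨hγ, ?_, ?_⟩
      · by_contra hc
        push Not at hc
        apply hu
        rw [← h3]
        have : (fun r => e (γ r)) = fun _ => e (γ 0) := by
          ext1 r
          rw [hc r 0]
        rw [this]
        simp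
      · intro t
        rw [energy_const g hγ t, form_velocity g he (hmd 0) hsrc, hy0, h3]
        exact hnull
    obtain ⟨C₁, C₂, hC₁, hC⟩ := hcon γ hlight
    have hder := hasDerivAt_Hm g η he hγ hsrc
    rw [hy0, h3] at hder
    have hder2 : HasDerivAt (fun s => η.form (γ s) (velocity E γ s)) (Qf g η e y u) 0 := by
      refine hder.congr_of_eventuallyEq ?_
      have hcont : ContinuousAt γ 0 := (hγ.1 0).continuousAt
      have : ∀ᶠ r in 𝓝 (0 : ℝ), γ r ∈ e.source :=
        hcont.eventually_mem (e.open_source.mem_nhds hsrc)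
      filter_upwards [this] with r hr
      exact eval_velocity η he (hmd r) hr
    have hder3 : HasDerivAt (fun s => η.form (γ s) (velocity E γ s)) C₁ 0 := by
      have : (fun s => η.form (γ s) (velocity E γ s)) = fun s => C₁ * s + C₂ := by
        ext1 s
        exact hC s
      rw [this]
      simpa using ((hasDerivAt_id (0 : ℝ)).const_mul C₁).add_const C₂
    rw [hder2.unique hder3]
    exact hC₁
  -- uniform bound on `M`
  have hbound : ∃ C : ℝ, ∀ γ : ℝ → M, g.IsLightlikeGeodesic γ → ∀ C₁ C₂ : ℝ,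
      (∀ t : ℝ, η.form (γ t) (velocity E γ t) = C₁ * t + C₂) →
      ∀ t : ℝ, (C₁ * t + C₂) ^ 2 ≤ C * |C₁| := by
    have hloc : ∀ x : M, ∃ U ∈ 𝓝 x, ∃ C : ℝ, 0 ≤ C ∧ ∀ γ : ℝ → M, g.IsLightlikeGeodesic γ →
        ∀ C₁ C₂ : ℝ, (∀ t : ℝ, η.form (γ t) (velocity E γ t) = C₁ * t + C₂) →
        ∀ t : ℝ, γ t ∈ U → (C₁ * t + C₂) ^ 2 ≤ C * |C₁| := by
      intro x
      set e := chartAt E x with he'
      have he := chart_mem_atlas E x
      have hx := mem_chart_source E x
      have hy : e x ∈ e.target := e.map_source hx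
      obtain ⟨r, hr, hball⟩ := Metric.nhds_basis_closedBall.mem_iff.1
        (e.open_target.mem_nhds hy)
      obtain ⟨C, hC0, hC⟩ := local_bound g η he (hQ e he)
        (isCompact_closedBall (e x) r) hball
      refine ⟨e.source ∩ e ⁻¹' Metric.closedBall (e x) r, ?_, C, hC0, ?_⟩
      · exact Filter.inter_mem (e.open_source.mem_nhds hx)
          ((e.continuousAt hx).preimage_mem_nhds (Metric.closedBall_mem_nhds _ hr))
      · intro γ hγ C₁ C₂ hlin t ht
        have hmd : ∀ t, MDifferentiableAt 𝓘(ℝ, ℝ) 𝓘(ℝ, E) γ t := fun t =>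
          (hγ.1.1 t).mdifferentiableAt (by simp)
        have hnull : Gm g e (e (γ t)) (deriv (fun r => e (γ r)) t)
            (deriv (fun r => e (γ r)) t) = 0 := by
          rw [← form_velocity g he (hmd t) ht.1]
          exact hγ.2.2 t
        have h1 := hC _ ht.2 _ hnull
        rw [← eval_velocity η he (hmd t) ht.1, hlin t] at h1
        have hder := hasDerivAt_Hm g η he hγ.1 ht.1
        have hder2 : HasDerivAt (fun s => η.form (γ s) (velocity E γ s))
            (Qf g η e (e (γ t)) (deriv (fun r => e (γ r)) t)) t := by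
          refine hder.congr_of_eventuallyEq ?_
          have hcont : ContinuousAt γ t := (hγ.1.1 t).continuousAt
          have : ∀ᶠ r in 𝓝 t, γ r ∈ e.source :=
            hcont.eventually_mem (e.open_source.mem_nhds ht.1)
          filter_upwards [this] with r hr
          exact eval_velocity η he (hmd r) hr
        have hder3 : HasDerivAt (fun s => η.form (γ s) (velocity E γ s)) C₁ t := by
          have : (fun s => η.form (γ s) (velocity E γ s)) = fun s => C₁ * s + C₂ := by
            ext1 s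
            exact hlin s
          rw [this]
          simpa using ((hasDerivAt_id t).const_mul C₁).add_const C₂
        rw [hder2.unique hder3] at h1
        exact h1
    choose U hU C hC0 hC using hloc
    obtain ⟨T, hT⟩ := isCompact_univ.elim_nhds_subcover U (fun x _ => hU x)
    refine ⟨∑ x ∈ T, C x, ?_⟩
    intro γ hγ C₁ C₂ hlin t
    have hmem : γ t ∈ ⋃ x ∈ T, U x := hT.2 (mem_univ _)
    obtain ⟨x, hxT, hxU⟩ := mem_iUnion₂.1 hmem
    refine (hC x γ hγ C₁ C₂ hlin t hxU).trans ?_
    exact mul_le_mul_of_nonneg_right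
      (Finset.single_le_sum (f := C) (fun i _ => hC0 i) hxT) (abs_nonneg _)
  obtain ⟨C, hC⟩ := hbound
  -- a null vector
  obtain ⟨x, -, -⟩ := hη
  obtain ⟨⟨v, hv⟩, ⟨w, hw⟩⟩ := hind x
  have hnull : ∃ u : TangentSpace 𝓘(ℝ, E) x, u ≠ 0 ∧ g.form x u u = 0 := by
    set a := g.form x v v with ha
    set b := g.form x v w with hb
    set c := g.form x w w with hc
    have hq : ∀ s : ℝ, g.form x (v + s • w) (v + s • w) = a + 2 * s * b + s ^ 2 * c := by
      intro s
      simp only [map_add, map_smul, LinearMap.add_apply, LinearMap.smul_apply, smul_eq_mul]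
      rw [g.symm x w v]
      simp only [← ha, ← hb, ← hc]
      ring
    have hdisc : 0 ≤ b ^ 2 - a * c := by nlinarith [mul_pos hv (neg_pos.2 hw), sq_nonneg b]
    set s : ℝ := (-b + Real.sqrt (b ^ 2 - a * c)) / c with hs
    have hcne : c ≠ 0 := hw.ne
    refine ⟨v + s • w, ?_, ?_⟩
    · intro h0
      have h1 : v = (-s) • w := by
        rw [neg_smul]
        exact eq_neg_of_add_eq_zero_left h0
      have h2 : a = s ^ 2 * c := by
        rw [ha, h1]
        simp only [map_smul, LinearMap.smul_apply, smul_eq_mul]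
        rw [← hc]
        ring
      nlinarith [sq_nonneg s]
    · rw [hq]
      have hsq : Real.sqrt (b ^ 2 - a * c) ^ 2 = b ^ 2 - a * c := Real.sq_sqrt hdisc
      rw [hs]
      field_simp
      nlinarith
  obtain ⟨u, hu, hunull⟩ := hnull
  obtain ⟨γ, hγ, hγ0⟩ := hcomp x u
  have hlight : g.IsLightlikeGeodesic γ := by
    refine ⟨hγ, ?_, ?_⟩
    · by_contra hc
      push Not at hc
      apply hu
      have h1 : γ = fun _ => γ 0 := by
        ext1 r
        exact hc r 0
      have h2 : mfderiv 𝓘(ℝ, ℝ) 𝓘(ℝ, E) γ 0 (1 : ℝ) = (0 : E) := by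
        rw [h1, mfderiv_const]
        rfl
      have h3 : (⟨γ 0, mfderiv 𝓘(ℝ, ℝ) 𝓘(ℝ, E) γ 0 (1 : ℝ)⟩ : TangentBundle 𝓘(ℝ, E) M) = ⟨x, u⟩ := hγ0
      have h4 := (Bundle.TotalSpace.mk.inj h3).2
      have h5 : (mfderiv 𝓘(ℝ, ℝ) 𝓘(ℝ, E) γ 0 (1 : ℝ) : E) = u :=
        eq_of_heq h4
      exact h5.symm.trans h2
    · intro t
      rw [energy_const g hγ t]
      have h2 := congrArg (fun p : TangentBundle 𝓘(ℝ, E) M => g.form p.1 p.2 p.2) hγ0
      exact h2.trans hunull
  obtain ⟨C₁, C₂, hC₁, hlin⟩ := hcon γ hlight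
  have hfin := hC γ hlight C₁ C₂ hlin
  -- unbounded affine function
  set A : ℝ := C * |C₁| with hA
  have h1 := hfin ((|A| + 1 - C₂) / C₁)
  have h2 : C₁ * ((|A| + 1 - C₂) / C₁) + C₂ = |A| + 1 := by
    field_simp
    ring
  rw [h2] at h1
  have h3 : A ≤ |A| := le_abs_self _
  nlinarith [abs_nonneg A]

end Pool.Agent.Results.MP_64c48d_gt.NoLinearGrowth
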